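import Mathlib

set_option autoImplicit false

/-!
# Orthogonality in the Desarguesian projective planes
-/

namespace Pool.Agent.Y431.D2

open Finset
open scoped LinearAlgebra.Projectivization

open Classical in
/-- A symmetric relation on the `q ^ 2 + q + 1` elements of a type for which each element is
related to `q + 1` elements and any two elements are related to a common element. -/
structure Polar (q : ℕ) (P : Type) [Fintype P] (R : P → P → Prop) : Prop where
  symm : ∀ a b, R a b → R b a
  card : Fintype.card P = q ^ 2 + q + 1
  deg : ∀ a, (univ.filter fun b => R a b).card = q + 1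
  meet : ∀ a b, ∃ c, R a c ∧ R c b

open Configuration Projectivization in
theorem polar_of_field (F : Type) [Field F] [Fintype F] :
    ∃ (P : Type) (_ : Fintype P) (R : P → P → Prop), Polar (Fintype.card F) P R := by
  classical
  let P := ℙ F (Fin 3 → F)
  have : Finite P := inferInstance
  let _ : Fintype P := Fintype.ofFinite P
  have hcard : Fintype.card P = Fintype.card F ^ 2 + Fintype.card F + 1 := by
    have h1 := Projectivization.card_of_finrank F (Fin 3 → F) (n := 3) (by simp)
    rw [Nat.card_eq_fintype_card, Nat.card_eq_fintype_card] at h1
    rw [h1]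
    simp only [sum_range_succ, sum_range_zero]
    ring
  have horder : ProjectivePlane.order P P = Fintype.card F := by
    have h1 := ProjectivePlane.card_points P P
    rw [hcard] at h1
    have h2 : ∀ a b : ℕ, a ^ 2 + a + 1 = b ^ 2 + b + 1 → a = b := by
      intro a b hab
      rcases lt_trichotomy a b with h | h | h
      · nlinarith
      · exact h
      · nlinarith
    exact (h2 _ _ h1).symm
  have hdeg : ∀ a : P, (univ.filter fun b => orthogonal a b).card = Fintype.card F + 1 := by
    intro a
    have h1 := ProjectivePlane.lineCount_eq (P := P) (L := P) a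
    rw [horder] at h1
    rw [← h1, lineCount, Nat.card_eq_fintype_card, Fintype.card_subtype]
    congr 1
  refine ⟨P, inferInstance, fun a b => orthogonal a b, ?_⟩
  refine ⟨fun a b h => orthogonal_comm.1 h, hcard, ?_, ?_⟩
  · intro a
    rw [← hdeg a]
  · intro a b
    by_cases hab : a = b
    · subst hab
      obtain ⟨c, hc⟩ : (univ.filter fun b => orthogonal a b).Nonempty := by
        rw [← card_pos, hdeg a]
        omega
      rw [mem_filter] at hc
      exact ⟨c, hc.2, orthogonal_comm.1 hc.2⟩
    · exact ⟨cross a b, orthogonal_cross_left hab, orthogonal_comm.1 (orthogonal_cross_right hab)⟩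

theorem exists_polar {q : ℕ} (hq : IsPrimePow q) :
    ∃ (P : Type) (_ : Fintype P) (R : P → P → Prop), Polar q P R := by
  obtain ⟨p, k, hp, hk, rfl⟩ := (isPrimePow_nat_iff _).1 hq
  have : Fact p.Prime := ⟨hp⟩
  have : Finite (GaloisField p k) := inferInstance
  let _ : Fintype (GaloisField p k) := Fintype.ofFinite _
  have h := polar_of_field (GaloisField p k)
  rwa [← Nat.card_eq_fintype_card, GaloisField.card p k hk.ne'] at h

end Pool.Agent.Y431.D2
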