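import Mathlib
import Pool.Agent.Y431.D2.Polarity
import Pool.Agent.TH528.DiamTwo.Upper

set_option autoImplicit false

/-!
# Graphs of diameter two from orthogonality
-/

namespace Pool.Agent.Y431.D2

open Finset
open Pool.Agent.TH528.DiamTwo (D2)

/-- The graph on the points and on further vertices, each of them joined to the points related to
a given point. -/
def QG {P I : Type} (R : P → P → Prop) (hR : ∀ a b, R a b → R b a) (lam : I → P) :
    SimpleGraph (P ⊕ I) where
  Adj u v := match u, v with
    | Sum.inl a, Sum.inl b => a ≠ b ∧ R a b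
    | Sum.inl a, Sum.inr i => R a (lam i)
    | Sum.inr i, Sum.inl a => R a (lam i)
    | Sum.inr _, Sum.inr _ => False
  symm := ⟨by
    rintro (a | i) (b | j) h
    · exact ⟨h.1.symm, hR _ _ h.2⟩
    · exact h
    · exact h
    · exact h⟩
  loopless := ⟨by
    rintro (a | i) h
    · exact h.1 rfl
    · exact h⟩

variable {q : ℕ} {P I : Type} [Fintype P] [Fintype I] {R : P → P → Prop}

omit [Fintype I] in
lemma QG_d2 (h : Polar q P R) (lam : I → P) : D2 (QG R h.symm lam) := by
  have hll : ∀ a b : P, a ≠ b → R a b → (QG R h.symm lam).Adj (Sum.inl a) (Sum.inl b) :=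
    fun a b h1 h2 => ⟨h1, h2⟩
  have hlr : ∀ (a : P) (i : I), R a (lam i) → (QG R h.symm lam).Adj (Sum.inl a) (Sum.inr i) :=
    fun a i h => h
  have hrl : ∀ (a : P) (i : I), R a (lam i) → (QG R h.symm lam).Adj (Sum.inr i) (Sum.inl a) :=
    fun a i h => h
  rintro (a | i) (b | j)
  · by_cases hab : a = b
    · exact Or.inl (by rw [hab])
    obtain ⟨c, h1, h2⟩ := h.meet a b
    by_cases hca : c = a
    · subst hca
      exact Or.inr (Or.inl (hll _ _ hab h2))
    by_cases hcb : c = b
    · subst hcb
      exact Or.inr (Or.inl (hll _ _ hab h1))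
    exact Or.inr (Or.inr ⟨Sum.inl c, hll _ _ (Ne.symm hca) h1, hll _ _ hcb h2⟩)
  · obtain ⟨c, h1, h2⟩ := h.meet a (lam j)
    by_cases hca : c = a
    · subst hca
      exact Or.inr (Or.inl (hlr _ _ h2))
    · exact Or.inr (Or.inr ⟨Sum.inl c, hll _ _ (Ne.symm hca) h1, hlr _ _ h2⟩)
  · obtain ⟨c, h1, h2⟩ := h.meet b (lam i)
    by_cases hcb : c = b
    · subst hcb
      exact Or.inr (Or.inl (hrl _ _ h2))
    · exact Or.inr (Or.inr ⟨Sum.inl c, hrl _ _ h2, hll _ _ hcb (h.symm _ _ h1)⟩)
  · obtain ⟨c, h1, h2⟩ := h.meet (lam i) (lam j)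
    exact Or.inr (Or.inr ⟨Sum.inl c, hrl _ _ (h.symm _ _ h1), hlr _ _ h2⟩)

open Classical in
lemma QG_degree_inl (h : Polar q P R) (lam : I → P) (a : P) {s : ℕ}
    (hs : ∀ b, (univ.filter fun i => lam i = b).card ≤ s) :
    (QG R h.symm lam).degree (Sum.inl a) ≤ (q + 1) * (s + 1) := by
  have hsub : (QG R h.symm lam).neighborFinset (Sum.inl a) ⊆
      (univ.filter fun b => R a b).disjSum (univ.filter fun i => R a (lam i)) := by
    intro v hv
    rw [SimpleGraph.mem_neighborFinset] at hv
    rcases v with b | i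
    · rw [inl_mem_disjSum, mem_filter]
      exact ⟨mem_univ _, hv.2⟩
    · rw [inr_mem_disjSum, mem_filter]
      exact ⟨mem_univ _, hv⟩
  have h1 := card_le_card hsub
  rw [card_disjSum, h.deg a] at h1
  have h2 : (univ.filter fun i => R a (lam i)).card ≤ (q + 1) * s := by
    have h3 : (univ.filter fun i => R a (lam i)) ⊆
        (univ.filter fun b => R a b).biUnion fun b => univ.filter fun i => lam i = b := by
      intro i hi
      simp only [mem_filter, mem_univ, true_and, mem_biUnion] at hi ⊢
      exact ⟨lam i, hi, rfl⟩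
    calc _ ≤ _ := card_le_card h3
      _ ≤ ∑ b ∈ univ.filter (fun b => R a b), (univ.filter fun i => lam i = b).card :=
        card_biUnion_le
      _ ≤ ∑ _b ∈ univ.filter (fun b => R a b), s := sum_le_sum (fun b _ => hs b)
      _ = (q + 1) * s := by rw [sum_const, h.deg a, smul_eq_mul]
  change ((QG R h.symm lam).neighborFinset (Sum.inl a)).card ≤ _
  have : (q + 1) * (s + 1) = (q + 1) + (q + 1) * s := by ring
  omega

open Classical in
lemma QG_degree_inr (h : Polar q P R) (lam : I → P) (i : I) :
    (QG R h.symm lam).degree (Sum.inr i) ≤ q + 1 := by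
  have hsub : (QG R h.symm lam).neighborFinset (Sum.inr i) ⊆
      (univ.filter fun b => R (lam i) b).disjSum ∅ := by
    intro v hv
    rw [SimpleGraph.mem_neighborFinset] at hv
    rcases v with b | j
    · rw [inl_mem_disjSum, mem_filter]
      exact ⟨mem_univ _, h.symm _ _ hv⟩
    · exact hv.elim
  have h1 := card_le_card hsub
  rw [card_disjSum, h.deg (lam i)] at h1
  simpa using h1

open Classical in
lemma QG_degree (h : Polar q P R) (lam : I → P) {s : ℕ}
    (hs : ∀ b, (univ.filter fun i => lam i = b).card ≤ s) (v : P ⊕ I) :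
    (QG R h.symm lam).degree v ≤ (q + 1) * (s + 1) := by
  rcases v with a | i
  · exact QG_degree_inl h lam a hs
  · refine (QG_degree_inr h lam i).trans ?_
    exact Nat.le_mul_of_pos_right _ (by omega)

open Classical in
lemma QG_edges (h : Polar q P R) (lam : I → P) {s : ℕ}
    (hs : ∀ b, (univ.filter fun i => lam i = b).card ≤ s) :
    2 * (QG R h.symm lam).edgeFinset.card ≤ (q + 1) * (Fintype.card P * (s + 1) + Fintype.card I)
    := by
  rw [← (QG R h.symm lam).sum_degrees_eq_twice_card_edges, Fintype.sum_sum_type]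
  have h1 : ∑ a : P, (QG R h.symm lam).degree (Sum.inl a) ≤ ∑ _a : P, (q + 1) * (s + 1) :=
    sum_le_sum (fun a _ => QG_degree_inl h lam a hs)
  have h2 : ∑ i : I, (QG R h.symm lam).degree (Sum.inr i) ≤ ∑ _i : I, (q + 1) :=
    sum_le_sum (fun i _ => QG_degree_inr h lam i)
  simp only [sum_const, card_univ, smul_eq_mul] at h1 h2
  calc _ ≤ _ := Nat.add_le_add h1 h2
    _ = _ := by ring

/-- A balanced map. -/
lemma exists_balanced (P : Type) [Fintype P] [DecidableEq P] (hP : 0 < Fintype.card P) (r : ℕ) :
    ∃ lam : Fin r → P, ∀ b, (univ.filter fun i => lam i = b).card ≤ r / Fintype.card P + 1 := by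
  set N := Fintype.card P with hN
  let e := Fintype.equivFin P
  refine ⟨fun i => e.symm ⟨i.val % N, Nat.mod_lt _ hP⟩, ?_⟩
  intro b
  have : (univ.filter fun i : Fin r => e.symm ⟨i.val % N, Nat.mod_lt _ hP⟩ = b).card ≤
      (range (r / N + 1)).card := by
    apply card_le_card_of_injOn (fun i => i.val / N)
    · intro i _
      simp only [coe_range, Set.mem_Iio]
      have := Nat.div_le_div_right (c := N) i.isLt.le
      omega
    · intro i hi j hj hij
      simp only [coe_filter, mem_univ, true_and, Set.mem_ofPred_eq] at hi hj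
      simp only at hij
      have h1 : i.val % N = j.val % N := by
        have := e.symm.injective (hi.trans hj.symm)
        simpa using this
      apply Fin.ext
      rw [← Nat.div_add_mod i.val N, ← Nat.div_add_mod j.val N, hij, h1]
  simpa using this

end Pool.Agent.Y431.D2
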