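import Mathlib

set_option autoImplicit false

/-!
# Extreme optimal fractional matchings of a finite family
-/

namespace Pool.Agent.Y431.D2

open Finset

variable {ι V : Type*} [Fintype ι] [DecidableEq ι] [Fintype V] [DecidableEq V]

/-- the polytope of the fractional matchings -/
def poly (F : ι → Finset V) : Set (ι → ℝ) :=
  {w | (∀ i, 0 ≤ w i) ∧ ∀ x, ∑ i with x ∈ F i, w i ≤ 1}

omit [DecidableEq ι] [Fintype V] in
lemma poly_isClosed (F : ι → Finset V) : IsClosed (poly F) := by
  have : poly F = (⋂ i, {w : ι → ℝ | 0 ≤ w i}) ∩ ⋂ x, {w : ι → ℝ | ∑ i with x ∈ F i, w i ≤ 1} := by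
    ext w
    simp [poly]
  rw [this]
  apply IsClosed.inter
  · apply isClosed_iInter
    intro i
    exact isClosed_le continuous_const (continuous_apply i)
  · apply isClosed_iInter
    intro x
    exact isClosed_le (continuous_finsetSum _ (fun i _ => continuous_apply i)) continuous_const

omit [DecidableEq ι] [Fintype V] in
lemma poly_isCompact (F : ι → Finset V) (hF : ∀ i, (F i).Nonempty) : IsCompact (poly F) := by
  apply IsCompact.of_isClosed_subset (isCompact_Icc (a := (0 : ι → ℝ)) (b := 1)) (poly_isClosed F)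
  intro w hw
  refine ⟨fun i => hw.1 i, fun i => ?_⟩
  obtain ⟨x, hx⟩ := hF i
  refine le_trans ?_ (hw.2 x)
  exact single_le_sum (f := w) (fun j _ => hw.1 j) (by simp [hx])

/-- There is an optimal fractional matching whose support is no larger than the set of its
saturated points. -/
theorem exists_extreme (F : ι → Finset V) (hF : ∀ i, (F i).Nonempty) (w0 : ι → ℝ)
    (hw0 : w0 ∈ poly F) :
    ∃ w ∈ poly F, ∑ i, w0 i ≤ ∑ i, w i ∧
      (univ.filter fun i => w i ≠ 0).card ≤
        (univ.filter fun x => ∑ i with x ∈ F i, w i = 1).card := by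
  classical
  have hc := poly_isCompact F hF
  have hcont : Continuous fun w : ι → ℝ => ∑ i, w i :=
    continuous_finsetSum _ (fun i _ => continuous_apply i)
  obtain ⟨w1, hw1, hmax⟩ := hc.exists_isMaxOn ⟨w0, hw0⟩ hcont.continuousOn
  set s := ∑ i, w1 i with hs
  have hM : IsCompact (poly F ∩ {w : ι → ℝ | s ≤ ∑ i, w i}) :=
    hc.inter_right (isClosed_le continuous_const hcont)
  obtain ⟨w, hw⟩ := hM.extremePoints_nonempty ⟨w1, hw1, le_refl s⟩
  have hwP : w ∈ poly F := hw.1.1
  have hws : s ≤ ∑ i, w i := hw.1.2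
  refine ⟨w, hwP, (hmax hw0).trans hws, ?_⟩
  by_contra hlt
  push Not at hlt
  set B := univ.filter fun i => w i ≠ 0 with hB
  set T := univ.filter fun x => ∑ i with x ∈ F i, w i = 1 with hT
  -- the linear map
  let f : (ι → ℝ) →ₗ[ℝ] (T → ℝ) × ((Bᶜ : Finset ι) → ℝ) :=
    { toFun := fun z => (fun x => ∑ i with (x : V) ∈ F i, z i, fun i => z i)
      map_add' := by
        intro z z'
        ext x
        · simp [sum_add_distrib]
        · simp
      map_smul' := by
        intro c z
        ext x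
        · simp [mul_sum]
        · simp }
  have hker : LinearMap.ker f ≠ ⊥ := by
    apply LinearMap.ker_ne_bot_of_finrank_lt
    rw [Module.finrank_prod, Module.finrank_fintype_fun_eq_card, Module.finrank_fintype_fun_eq_card,
      Module.finrank_fintype_fun_eq_card, Fintype.card_coe, Fintype.card_coe, card_compl]
    have := card_le_univ B
    omega
  obtain ⟨z, hz, hz0⟩ := (Submodule.ne_bot_iff _).1 hker
  rw [LinearMap.mem_ker] at hz
  have hz1 : ∀ x ∈ T, ∑ i with x ∈ F i, z i = 0 := by
    intro x hx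
    have := congrFun (congrArg Prod.fst hz) ⟨x, hx⟩
    exact this
  have hz2 : ∀ i, w i = 0 → z i = 0 := by
    intro i hi
    have hi' : i ∈ Bᶜ := by simp [hB, hi]
    exact congrFun (congrArg Prod.snd hz) ⟨i, hi'⟩
  -- small perturbations stay feasible
  have hsm : ∀ᶠ t : ℝ in nhds 0, w + t • z ∈ poly F := by
    have h1 : ∀ᶠ t : ℝ in nhds 0, ∀ i, 0 ≤ w i + t * z i := by
      rw [Filter.eventually_all]
      intro i
      by_cases hi : w i = 0
      · have := hz2 i hi
        filter_upwards with t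
        rw [hi, this]
        simp
      · have hpos : 0 < w i := lt_of_le_of_ne (hwP.1 i) (Ne.symm hi)
        have hct : ContinuousAt (fun t : ℝ => w i + t * z i) 0 := by fun_prop
        have : ∀ᶠ t : ℝ in nhds 0, 0 < w i + t * z i :=
          hct.eventually_const_lt (by simpa using hpos)
        exact this.mono fun t ht => ht.le
    have h2 : ∀ᶠ t : ℝ in nhds 0, ∀ x, ∑ i with x ∈ F i, (w i + t * z i) ≤ 1 := by
      rw [Filter.eventually_all]
      intro x
      by_cases hx : ∑ i with x ∈ F i, w i = 1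
      · have hxT : x ∈ T := by simp [hT, hx]
        have := hz1 x hxT
        filter_upwards with t
        rw [sum_add_distrib, ← mul_sum, this, hx]
        simp
      · have hlt1 : ∑ i with x ∈ F i, w i < 1 := lt_of_le_of_ne (hwP.2 x) hx
        have hct : ContinuousAt (fun t : ℝ => ∑ i with x ∈ F i, (w i + t * z i)) 0 := by fun_prop
        have : ∀ᶠ t : ℝ in nhds 0, ∑ i with x ∈ F i, (w i + t * z i) < 1 :=
          hct.eventually_lt_const (by simpa using hlt1)
        exact this.mono fun t ht => ht.le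
    filter_upwards [h1, h2] with t ht1 ht2
    exact ⟨fun i => by simpa using ht1 i, fun x => by simpa using ht2 x⟩
  have hsm' : ∀ᶠ t : ℝ in nhds 0, w + (-t) • z ∈ poly F := by
    have ht : Filter.Tendsto (fun t : ℝ => -t) (nhds 0) (nhds 0) := by
      have : ContinuousAt (fun t : ℝ => -t) 0 := by fun_prop
      simpa [ContinuousAt] using this
    exact ht.eventually hsm
  obtain ⟨t, ht0, htp, htn⟩ : ∃ t : ℝ, 0 < t ∧ w + t • z ∈ poly F ∧ w + (-t) • z ∈ poly F := by
    have h3 := (hsm.and hsm').filter_mono (nhdsWithin_le_nhds (s := Set.Ioi (0 : ℝ)))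
    have h4 : ∀ᶠ t : ℝ in nhdsWithin 0 (Set.Ioi 0), 0 < t := eventually_mem_nhdsWithin
    obtain ⟨t, ht1, ht2⟩ := (h3.and h4).exists
    exact ⟨t, ht2, ht1.1, ht1.2⟩
  have hsum : ∀ c : ℝ, ∑ i, (w + c • z) i = ∑ i, w i + c * ∑ i, z i := by
    intro c
    simp [sum_add_distrib, mul_sum]
  have hle : ∀ w' ∈ poly F, ∑ i, w' i ≤ ∑ i, w i := fun w' hw' => (hmax hw').trans hws
  have hzs : ∑ i, z i = 0 := by
    have h5 := hle _ htp
    have h6 := hle _ htn
    rw [hsum] at h5 h6
    have h7 : t * ∑ i, z i ≤ 0 := by linarith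
    have h8 : 0 ≤ t * ∑ i, z i := by linarith
    have h9 : t * ∑ i, z i = 0 := le_antisymm h7 h8
    rcases mul_eq_zero.1 h9 with h | h
    · exact absurd h ht0.ne'
    · exact h
  have hmem1 : w + t • z ∈ poly F ∩ {w : ι → ℝ | s ≤ ∑ i, w i} := by
    refine ⟨htp, ?_⟩
    rw [Set.mem_ofPred_eq, hsum, hzs]
    simpa using hws
  have hmem2 : w + (-t) • z ∈ poly F ∩ {w : ι → ℝ | s ≤ ∑ i, w i} := by
    refine ⟨htn, ?_⟩
    rw [Set.mem_ofPred_eq, hsum, hzs]
    simpa using hws
  have hseg : w ∈ openSegment ℝ (w + t • z) (w + (-t) • z) := by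
    refine ⟨1 / 2, 1 / 2, by norm_num, by norm_num, by norm_num, ?_⟩
    module
  have := hw.2 hmem1 hmem2 hseg
  have h10 : t • z = 0 := by simpa using this
  rcases smul_eq_zero.1 h10 with h | h
  · exact ht0.ne' h
  · exact hz0 h

end Pool.Agent.Y431.D2
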