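import Mathlib
import Pool.Agent.Y431.D2.Extreme

set_option autoImplicit false

/-!
# Intersecting families with a large fractional matching contain a projective plane
-/

namespace Pool.Agent.Y431.D2

open Finset

variable {ι V : Type*} [DecidableEq ι] [DecidableEq V]

/-- A family of sets, indexed by `M`, which is a projective plane of order `q` on `T`. -/
structure Plane (q : ℕ) (F : ι → Finset V) (M : Finset ι) (T : Finset V) : Prop where
  cardM : M.card = q ^ 2 + q + 1
  cardT : T.card = q ^ 2 + q + 1
  cardF : ∀ i ∈ M, (F i).card = q + 1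
  sub : ∀ i ∈ M, F i ⊆ T
  deg : ∀ x ∈ T, (M.filter fun i => x ∈ F i).card = q + 1
  inter : ∀ i ∈ M, ∀ j ∈ M, i ≠ j → (F i ∩ F j).card = 1

omit [DecidableEq ι] in
/-- double counting -/
lemma sum_card_inter (F : ι → Finset V) (M : Finset ι) (X : Finset V) :
    ∑ i ∈ M, (X ∩ F i).card = ∑ x ∈ X, (M.filter fun i => x ∈ F i).card := by
  have h1 : ∀ i, (X ∩ F i).card = ∑ x ∈ X, if x ∈ F i then 1 else 0 := by
    intro i
    rw [← sum_filter, sum_const, smul_eq_mul, mul_one, filter_mem_eq_inter]
  have h2 : ∀ x, (M.filter fun i => x ∈ F i).card = ∑ i ∈ M, if x ∈ F i then 1 else 0 := by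
    intro x
    rw [← sum_filter, sum_const, smul_eq_mul, mul_one]
  simp only [h1, h2]
  exact sum_comm

variable [Fintype ι] [Fintype V]

/-- An intersecting family of `(q + 1)`-sets with a fractional matching of value greater than `q`
contains a projective plane of order `q`. -/
theorem exists_plane (q : ℕ) (hq : 1 ≤ q) (F : ι → Finset V) (hF : ∀ i, (F i).card = q + 1)
    (hint : ∀ i j, (F i ∩ F j).Nonempty) (w0 : ι → ℝ) (hw0 : w0 ∈ poly F)
    (hsum0 : (q : ℝ) < ∑ i, w0 i) : ∃ (M : Finset ι) (T : Finset V), Plane q F M T := by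
  classical
  obtain ⟨w, hw, hle, hcard⟩ := exists_extreme F
    (fun i => card_pos.1 (by rw [hF i]; omega)) w0 hw0
  set B := univ.filter fun i => w i ≠ 0 with hB
  set T := univ.filter fun x => ∑ i with x ∈ F i, w i = 1 with hT
  have hs : (q : ℝ) < ∑ i, w i := lt_of_lt_of_le hsum0 hle
  have hqr : (1 : ℝ) ≤ q := by exact_mod_cast hq
  -- weights are small
  have hsmall : ∀ i ∈ B, w i < 1 / q := by
    intro i0 _
    have e1 : ∑ i, w i * ((F i0 ∩ F i).card : ℝ) = ∑ x ∈ F i0, ∑ i with x ∈ F i, w i := by
      have h1 : ∀ i, w i * ((F i0 ∩ F i).card : ℝ) = ∑ x ∈ F i0, if x ∈ F i then w i else 0 := by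
        intro i
        rw [← sum_filter, sum_const, nsmul_eq_mul, filter_mem_eq_inter, mul_comm]
      simp only [h1]
      rw [sum_comm]
      apply sum_congr rfl
      intro x _
      rw [sum_filter]
    have e2 : ∑ x ∈ F i0, ∑ i with x ∈ F i, w i ≤ q + 1 := by
      calc ∑ x ∈ F i0, ∑ i with x ∈ F i, w i ≤ ∑ _x ∈ F i0, (1 : ℝ) :=
            sum_le_sum (fun x _ => hw.2 x)
        _ = q + 1 := by simp [hF i0]
    have e3 : ∑ i, w i + q * w i0 ≤ ∑ i, w i * ((F i0 ∩ F i).card : ℝ) := by
      have h2 : ∑ i, w i + q * w i0 = ∑ i, (w i + if i = i0 then q * w i else 0) := by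
        rw [sum_add_distrib]
        simp
      rw [h2]
      apply sum_le_sum
      intro i _
      by_cases hi : i = i0
      · subst hi
        rw [if_pos rfl, inter_self, hF i]
        push_cast
        linarith
      · rw [if_neg hi, add_zero]
        have h3 : (1 : ℝ) ≤ ((F i0 ∩ F i).card : ℝ) := by
          exact_mod_cast card_pos.2 (hint i0 i)
        nlinarith [hw.1 i]
    have h4 : q * w i0 < 1 := by linarith
    rw [lt_div_iff₀ (by linarith), mul_comm]
    exact h4
  -- degrees of the saturated points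
  have hd : ∀ x ∈ T, q + 1 ≤ (B.filter fun i => x ∈ F i).card := by
    intro x hx
    have hx1 : ∑ i with x ∈ F i, w i = 1 := by simpa [hT] using hx
    have hx2 : ∑ i ∈ B.filter (fun i => x ∈ F i), w i = 1 := by
      rw [← hx1]
      symm
      have : (univ.filter fun i => x ∈ F i) ⊇ B.filter fun i => x ∈ F i :=
        filter_subset_filter _ (subset_univ _)
      symm
      apply sum_subset this
      intro i hi hi2
      by_contra hne
      apply hi2
      simp only [mem_filter, mem_univ, true_and] at hi ⊢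
      exact ⟨by simp [hB, hne], hi⟩
    have hne : (B.filter fun i => x ∈ F i).Nonempty := by
      by_contra hemp
      rw [not_nonempty_iff_eq_empty] at hemp
      rw [hemp] at hx2
      simp at hx2
    have hlt : ∑ i ∈ B.filter (fun i => x ∈ F i), w i <
        ∑ _i ∈ B.filter (fun i => x ∈ F i), (1 / q : ℝ) := by
      apply sum_lt_sum_of_nonempty hne
      intro i hi
      exact hsmall i (mem_filter.1 hi).1
    rw [hx2, sum_const, nsmul_eq_mul, mul_one_div, lt_div_iff₀ (by linarith), one_mul] at hlt
    have : q < (B.filter fun i => x ∈ F i).card := by exact_mod_cast hlt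
    omega
  -- double counting
  have hdc := sum_card_inter F B (univ : Finset V)
  simp only [univ_inter, hF, sum_const, smul_eq_mul] at hdc
  have hdcT : T.card * (q + 1) ≤ ∑ x ∈ T, (B.filter fun i => x ∈ F i).card := by
    rw [← smul_eq_mul]
    exact card_nsmul_le_sum _ _ _ hd
  have hsplit := sum_add_sum_compl T (fun x => (B.filter fun i => x ∈ F i).card)
  have hBT : B.card * (q + 1) ≤ T.card * (q + 1) := Nat.mul_le_mul_right _ hcard
  have hTc : ∑ x ∈ Tᶜ, (B.filter fun i => x ∈ F i).card = 0 := by omega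
  have hTe : ∑ x ∈ T, (B.filter fun i => x ∈ F i).card = ∑ _x ∈ T, (q + 1) := by
    rw [sum_const, smul_eq_mul]
    omega
  have hcardeq : B.card = T.card := by
    have : T.card * (q + 1) ≤ B.card * (q + 1) := by omega
    have := Nat.le_of_mul_le_mul_right this (by omega)
    omega
  have hdeg : ∀ x ∈ T, (B.filter fun i => x ∈ F i).card = q + 1 := by
    have := (sum_eq_sum_iff_of_le hd).1 hTe.symm
    intro x hx
    exact (this x hx).symm
  have hsub : ∀ i ∈ B, F i ⊆ T := by
    intro i hi x hx
    by_contra hxT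
    rw [sum_eq_zero_iff] at hTc
    have := hTc x (by simpa using hxT)
    rw [card_eq_zero] at this
    have hmem : i ∈ B.filter fun i => x ∈ F i := by simp [hi, hx]
    rw [this] at hmem
    simp at hmem
  -- the value
  have hval : (q + 1 : ℝ) * ∑ i, w i = B.card := by
    have h1 : ∑ x ∈ T, ∑ i with x ∈ F i, w i = (T.card : ℝ) := by
      calc ∑ x ∈ T, ∑ i with x ∈ F i, w i = ∑ _x ∈ T, (1 : ℝ) := by
            apply sum_congr rfl
            intro x hx
            simpa [hT] using hx
        _ = T.card := by simp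
    have h2 : ∑ x ∈ T, ∑ i with x ∈ F i, w i = ∑ i, w i * ((T ∩ F i).card : ℝ) := by
      have h3 : ∀ i, w i * ((T ∩ F i).card : ℝ) = ∑ x ∈ T, if x ∈ F i then w i else 0 := by
        intro i
        rw [← sum_filter, sum_const, nsmul_eq_mul, filter_mem_eq_inter, mul_comm]
      simp only [h3]
      rw [sum_comm]
      apply sum_congr rfl
      intro x _
      rw [sum_filter]
    have h4 : ∑ i, w i * ((T ∩ F i).card : ℝ) = ∑ i, w i * (q + 1) := by
      apply sum_congr rfl
      intro i _
      by_cases hi : w i = 0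
      · simp [hi]
      · have hiB : i ∈ B := by simp [hB, hi]
        rw [inter_eq_right.2 (hsub i hiB), hF i]
        push_cast
        ring
    rw [hcardeq, ← h1, h2, h4, ← sum_mul]
    ring
  have hlow : q ^ 2 + q + 1 ≤ B.card := by
    have h1 : ((q ^ 2 + q : ℕ) : ℝ) < (B.card : ℝ) := by
      rw [← hval]
      push_cast
      nlinarith
    have h2 : q ^ 2 + q < B.card := by exact_mod_cast h1
    omega
  -- each pair of members meets in exactly one point
  have hpair : ∀ i ∈ B, ∑ j ∈ B.erase i, (F i ∩ F j).card = (q + 1) * q := by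
    intro i hi
    have h1 := sum_card_inter F B (F i)
    have h2 : ∑ x ∈ F i, (B.filter fun j => x ∈ F j).card = (q + 1) * (q + 1) := by
      calc ∑ x ∈ F i, (B.filter fun j => x ∈ F j).card = ∑ _x ∈ F i, (q + 1) :=
            sum_congr rfl (fun x hx => hdeg x (hsub i hi hx))
        _ = _ := by simp [hF i]
    rw [← add_sum_erase _ _ hi, inter_self, hF i, h2] at h1
    have : (q + 1) * (q + 1) = (q + 1) + (q + 1) * q := by ring
    omega
  have hBne : B.Nonempty := card_pos.1 (by omega)
  have hup : B.card ≤ q ^ 2 + q + 1 := by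
    obtain ⟨i, hi⟩ := hBne
    have h1 : (B.erase i).card * 1 ≤ ∑ j ∈ B.erase i, (F i ∩ F j).card := by
      rw [← smul_eq_mul]
      apply card_nsmul_le_sum
      intro j _
      exact card_pos.2 (hint i j)
    rw [hpair i hi, card_erase_of_mem hi] at h1
    have : (q + 1) * q = q ^ 2 + q := by ring
    omega
  have hBN : B.card = q ^ 2 + q + 1 := le_antisymm hup hlow
  refine ⟨B, T, hBN, by rw [← hcardeq, hBN], fun i _ => hF i, hsub, hdeg, ?_⟩
  intro i hi j hj hij
  have h1 : ∑ _j ∈ B.erase i, 1 = ∑ j ∈ B.erase i, (F i ∩ F j).card := by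
    rw [hpair i hi, sum_const, smul_eq_mul, mul_one, card_erase_of_mem hi, hBN]
    have : (q + 1) * q = q ^ 2 + q := by ring
    omega
  have h2 := (sum_eq_sum_iff_of_le (fun j _ => card_pos.2 (hint i j))).1 h1 j
    (by simp [hj, Ne.symm hij])
  exact h2.symm

end Pool.Agent.Y431.D2
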