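import Mathlib
import Pool.Agent.Y431.D2.Furedi

set_option autoImplicit false

/-!
# Blocking sets of projective planes
-/

namespace Pool.Agent.Y431.D2

open Finset

variable {ι V : Type*} [DecidableEq ι] [DecidableEq V] {q : ℕ} {F : ι → Finset V}
  {M : Finset ι} {T : Finset V}

/-- two points lie on at most one line -/
lemma Plane.line_unique (h : Plane q F M T) {x y : V} (hxy : x ≠ y) {i j : ι} (hi : i ∈ M)
    (hj : j ∈ M) (hxi : x ∈ F i) (hyi : y ∈ F i) (hxj : x ∈ F j) (hyj : y ∈ F j) : i = j := by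
  by_contra hij
  have h1 := h.inter i hi j hj hij
  have h2 : ({x, y} : Finset V) ⊆ F i ∩ F j := by
    intro z hz
    simp only [mem_insert, mem_singleton] at hz
    rcases hz with rfl | rfl
    · simp [hxi, hxj]
    · simp [hyi, hyj]
  have h3 := card_le_card h2
  rw [card_pair hxy] at h3
  omega

/-- two points lie on a line -/
lemma Plane.line_exists (h : Plane q F M T) {x y : V} (hxy : x ≠ y) (hx : x ∈ T) (hy : y ∈ T) :
    ∃ i ∈ M, x ∈ F i ∧ y ∈ F i := by
  have h1 : ((M.filter fun i => x ∈ F i).biUnion fun i => (F i).erase x).card =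
      (q + 1) * q := by
    rw [card_biUnion]
    · calc ∑ i ∈ M.filter (fun i => x ∈ F i), ((F i).erase x).card
          = ∑ _i ∈ M.filter (fun i => x ∈ F i), q := by
            apply sum_congr rfl
            intro i hi
            rw [mem_filter] at hi
            rw [card_erase_of_mem hi.2, h.cardF i hi.1]
            omega
        _ = _ := by rw [sum_const, h.deg x hx, smul_eq_mul]
    · intro i hi j hj hij
      rw [mem_coe, mem_filter] at hi hj
      change Disjoint ((F i).erase x) ((F j).erase x)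
      rw [disjoint_left]
      intro z hz1 hz2
      rw [mem_erase] at hz1 hz2
      exact hij (h.line_unique hz1.1.symm hi.1 hj.1 hi.2 hz1.2 hj.2 hz2.2)
  have h2 : ((M.filter fun i => x ∈ F i).biUnion fun i => (F i).erase x) ⊆ T.erase x := by
    intro z hz
    simp only [mem_biUnion, mem_filter, mem_erase] at hz ⊢
    obtain ⟨i, hi, hz1, hz2⟩ := hz
    exact ⟨hz1, h.sub i hi.1 hz2⟩
  have h3 : ((M.filter fun i => x ∈ F i).biUnion fun i => (F i).erase x) = T.erase x := by
    apply eq_of_subset_of_card_le h2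
    rw [h1, card_erase_of_mem hx, h.cardT]
    have : (q + 1) * q = q ^ 2 + q := by ring
    omega
  have h4 : y ∈ T.erase x := by simp [hy, Ne.symm hxy]
  rw [← h3] at h4
  simp only [mem_biUnion, mem_filter, mem_erase] at h4
  obtain ⟨i, hi, _, hz2⟩ := h4
  exact ⟨i, hi.1, hi.2, hz2⟩

omit [DecidableEq ι] in
/-- A blocking set has at least `q + 1` points. -/
lemma Plane.le_card (h : Plane q F M T) {X : Finset V} (hX : X ⊆ T)
    (hb : ∀ i ∈ M, (X ∩ F i).Nonempty) : q + 1 ≤ X.card := by
  have h1 := sum_card_inter F M X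
  have h2 : ∑ x ∈ X, (M.filter fun i => x ∈ F i).card = X.card * (q + 1) := by
    rw [sum_congr rfl (fun x hx => h.deg x (hX hx)), sum_const, smul_eq_mul]
  have h3 : M.card * 1 ≤ ∑ i ∈ M, (X ∩ F i).card := by
    rw [← smul_eq_mul]
    exact card_nsmul_le_sum _ _ _ (fun i hi => card_pos.2 (hb i hi))
  rw [h1, h2, h.cardM] at h3
  by_contra hlt
  have h4 : X.card * (q + 1) ≤ q * (q + 1) := Nat.mul_le_mul_right _ (by omega)
  have : q * (q + 1) = q ^ 2 + q := by ring
  omega

/-- A blocking set with `q + 1` points is a line. -/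
lemma Plane.eq_line (h : Plane q F M T) (hq : 1 ≤ q) {X : Finset V} (hX : X ⊆ T)
    (hb : ∀ i ∈ M, (X ∩ F i).Nonempty) (hc : X.card = q + 1) : ∃ i ∈ M, X = F i := by
  obtain ⟨x, hx, y, hy, hxy⟩ := one_lt_card.1 (show 1 < X.card by omega)
  obtain ⟨i, hi, hxi, hyi⟩ := h.line_exists hxy (hX hx) (hX hy)
  refine ⟨i, hi, ?_⟩
  by_contra hne
  have hnot : ¬ F i ⊆ X := by
    intro hsub
    exact hne (eq_of_subset_of_card_le hsub (by rw [hc, h.cardF i hi])).symm
  obtain ⟨z, hz, hzX⟩ := not_subset.1 hnot
  have hzT : z ∈ T := h.sub i hi hz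
  have hiz : i ∈ M.filter fun j => z ∈ F j := by simp [hi, hz]
  have h1 := sum_card_inter F (M.filter fun j => z ∈ F j) X
  have h2 : ∑ x ∈ X, ((M.filter fun j => z ∈ F j).filter fun i => x ∈ F i).card ≤
      ∑ _x ∈ X, 1 := by
    apply sum_le_sum
    intro a ha
    rw [card_le_one]
    intro j hj j' hj'
    simp only [mem_filter] at hj hj'
    have hza : z ≠ a := fun h => hzX (h ▸ ha)
    exact h.line_unique hza hj.1.1 hj'.1.1 hj.1.2 hj.2 hj'.1.2 hj'.2
  have h3 : (M.filter fun j => z ∈ F j).card + 1 ≤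
      ∑ j ∈ M.filter (fun j => z ∈ F j), (X ∩ F j).card := by
    rw [← add_sum_erase _ _ hiz]
    have h4 : 2 ≤ (X ∩ F i).card := by
      rw [← card_pair hxy]
      apply card_le_card
      intro w hw
      simp only [mem_insert, mem_singleton] at hw
      rcases hw with rfl | rfl
      · simp [hx, hxi]
      · simp [hy, hyi]
    have h5 : ((M.filter fun j => z ∈ F j).erase i).card * 1 ≤
        ∑ j ∈ (M.filter fun j => z ∈ F j).erase i, (X ∩ F j).card := by
      rw [← smul_eq_mul]
      apply card_nsmul_le_sum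
      intro j hj
      rw [mem_erase, mem_filter] at hj
      exact card_pos.2 (hb j hj.2.1)
    rw [card_erase_of_mem hiz] at h5
    have h6 : 0 < (M.filter fun j => z ∈ F j).card := card_pos.2 ⟨i, hiz⟩
    omega
  rw [h1, h.deg z hzT] at h3
  rw [sum_const, smul_eq_mul, mul_one, hc] at h2
  omega

/-- If every point of a projective plane of order `q` is assigned a blocking set which contains
the point, in a symmetric fashion, then the sizes of these sets exceed `q + 1` by at least two in
total. -/
theorem Plane.sum_closed (h : Plane q F M T) (hq : 2 ≤ q) (S : V → Finset V)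
    (hST : ∀ u ∈ T, S u ⊆ T) (hself : ∀ u ∈ T, u ∈ S u)
    (hsymm : ∀ u ∈ T, ∀ x ∈ T, x ∈ S u → u ∈ S x)
    (hb : ∀ u ∈ T, ∀ i ∈ M, (S u ∩ F i).Nonempty) :
    (q + 1) * (q ^ 2 + q + 1) + 2 ≤ ∑ u ∈ T, (S u).card := by
  by_contra hlt
  have hk : ∀ u ∈ T, q + 1 ≤ (S u).card := fun u hu => h.le_card (hST u hu) (hb u hu)
  obtain ⟨p, hp, hpc⟩ : ∃ p ∈ T, (S p).card = q + 1 := by
    by_contra hno
    push Not at hno
    have h1 : T.card * (q + 2) ≤ ∑ u ∈ T, (S u).card := by
      rw [← smul_eq_mul]
      apply card_nsmul_le_sum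
      intro u hu
      have := hk u hu
      have := hno u hu
      omega
    rw [h.cardT] at h1
    have : (q ^ 2 + q + 1) * (q + 2) = (q + 1) * (q ^ 2 + q + 1) + (q ^ 2 + q + 1) := by ring
    have : 2 ≤ q ^ 2 + q + 1 := by nlinarith
    omega
  obtain ⟨i, hi, hSi⟩ := h.eq_line (by omega) (hST p hp) (hb p hp) hpc
  set A := (S p).erase p with hA
  have hAT : A ⊆ T := (erase_subset _ _).trans (hST p hp)
  have hAc : A.card = q := by
    rw [hA, card_erase_of_mem (hself p hp), hpc]
    omega
  have hcov : T ⊆ S p ∪ A.biUnion fun y => ((S y).erase p).erase y := by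
    intro x hx
    obtain ⟨y, hy⟩ := hb x hx i hi
    rw [mem_inter, ← hSi] at hy
    have hyT : y ∈ T := hST p hp hy.2
    have hxy : x ∈ S y := hsymm x hx y hyT hy.1
    rw [mem_union]
    by_cases h1 : y = p
    · left
      rw [← h1]
      exact hxy
    · by_cases h2 : x = p
      · left
        rw [h2]
        exact hself p hp
      · by_cases h3 : x = y
        · left
          rw [h3]
          exact hy.2
        · right
          rw [mem_biUnion]
          exact ⟨y, by simp [hA, h1, hy.2], by simp [h2, h3, hxy]⟩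
  have hAcard : ∀ y ∈ A, (((S y).erase p).erase y).card + 2 = (S y).card := by
    intro y hy
    have hyT := hAT hy
    rw [hA, mem_erase] at hy
    have h1 : p ∈ S y := hsymm p hp y hyT hy.2
    have h2 : y ∈ S y := hself y hyT
    have h3 : y ∈ (S y).erase p := by simp [hy.1, h2]
    have h4 : ({y, p} : Finset V) ⊆ S y := by
      intro z hz
      simp only [mem_insert, mem_singleton] at hz
      rcases hz with rfl | rfl
      · exact h2
      · exact h1
    have h5 := card_le_card h4
    rw [card_pair hy.1] at h5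
    rw [card_erase_of_mem h3, card_erase_of_mem h1]
    omega
  have h1 : T.card ≤ (q + 1) + ∑ y ∈ A, (((S y).erase p).erase y).card := by
    calc T.card ≤ _ := card_le_card hcov
      _ ≤ (S p).card + (A.biUnion fun y => ((S y).erase p).erase y).card := card_union_le _ _
      _ ≤ (q + 1) + ∑ y ∈ A, (((S y).erase p).erase y).card := by
        rw [hpc]
        exact Nat.add_le_add_left card_biUnion_le _
  have h2 : ∑ y ∈ A, (((S y).erase p).erase y).card + 2 * q = ∑ y ∈ A, (S y).card := by
    rw [← sum_congr rfl hAcard, sum_add_distrib, sum_const, hAc, smul_eq_mul]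
    ring
  have h3 : (T \ A).card * (q + 1) ≤ ∑ u ∈ T \ A, (S u).card := by
    rw [← smul_eq_mul]
    apply card_nsmul_le_sum
    intro u hu
    exact hk u (mem_sdiff.1 hu).1
  rw [card_sdiff_of_subset hAT, hAc, h.cardT] at h3
  have h4 := sum_sdiff (f := fun u => (S u).card) hAT
  rw [h.cardT] at h1
  have h5 : (q ^ 2 + q + 1 - q) * (q + 1) + q * (q + 1) = (q + 1) * (q ^ 2 + q + 1) := by
    rw [← add_mul]
    have : q ^ 2 + q + 1 - q + q = q ^ 2 + q + 1 := by omega
    rw [this]
    ring
  have h6 : q * (q + 1) = q ^ 2 + q := by ring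
  omega

end Pool.Agent.Y431.D2
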