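import Mathlib
import Pool.Agent.Y431.D2.PlaneFacts
import Pool.Agent.TH528.DiamTwo.Lower

set_option autoImplicit false

/-!
# Lower bounds for the size of graphs of diameter two with a linear degree cap
-/

namespace Pool.Agent.Y431.D2

open Finset
open Pool.Agent.TH528.DiamTwo (D2 card_le_of_d2)

variable {V : Type*} [Fintype V] [DecidableEq V] (G : SimpleGraph V) [DecidableRel G.Adj]

/-- vertices of linear degree -/
def hub (A n : ℕ) : Finset V := univ.filter fun u => n < A * G.degree u

/-- the number of neighbours of linear degree -/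
def hb (A n : ℕ) (v : V) : ℕ := (G.neighborFinset v ∩ hub G A n).card

lemma le_hb {q N n : ℕ} (hN : N = q ^ 2 + q + 1) (hn : Fintype.card V = n)
    (hn0 : 2 * N * (2 * q + 4) < n) (h : D2 G) (hdeg : ∀ v, N * G.degree v ≤ (q + 1) * n) (v : V)
    (hv : G.degree v ≤ 2 * q + 3) : q + 1 ≤ hb G (2 * (2 * q + 3) * N) n v := by
  by_contra hlt
  have hcard := card_le_of_d2 G h v
  rw [hn] at hcard
  set A := 2 * (2 * q + 3) * N with hA
  have hsplit : ∑ u ∈ G.neighborFinset v, G.degree u =
      ∑ u ∈ G.neighborFinset v ∩ hub G A n, G.degree u +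
      ∑ u ∈ G.neighborFinset v \ hub G A n, G.degree u := by
    exact (sum_inter_add_sum_sdiff _ _ _).symm
  have h1 : ∑ u ∈ G.neighborFinset v ∩ hub G A n, N * G.degree u ≤ hb G A n v * ((q + 1) * n) := by
    rw [hb, ← smul_eq_mul (a := (G.neighborFinset v ∩ hub G A n).card)]
    exact sum_le_card_nsmul _ _ _ (fun u _ => hdeg u)
  have h2 : ∑ u ∈ G.neighborFinset v \ hub G A n, A * G.degree u ≤
      (G.neighborFinset v \ hub G A n).card * n := by
    rw [← smul_eq_mul (a := (G.neighborFinset v \ hub G A n).card)]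
    apply sum_le_card_nsmul
    intro u hu
    rw [mem_sdiff] at hu
    have := hu.2
    simp only [hub, mem_filter, mem_univ, true_and, not_lt] at this
    exact this
  rw [← mul_sum] at h1 h2
  set a := ∑ u ∈ G.neighborFinset v ∩ hub G A n, G.degree u with ha
  set b := ∑ u ∈ G.neighborFinset v \ hub G A n, G.degree u with hb'
  have h3 : (G.neighborFinset v \ hub G A n).card ≤ 2 * q + 3 :=
    (card_le_card sdiff_subset).trans hv
  have h4 : (G.neighborFinset v \ hub G A n).card * n ≤ (2 * q + 3) * n :=
    Nat.mul_le_mul_right _ h3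
  have h5 : hb G A n v * ((q + 1) * n) ≤ q * ((q + 1) * n) := Nat.mul_le_mul_right _ (by omega)
  have h6 : 2 * N * b ≤ n := by
    have h7 : (2 * q + 3) * (2 * N * b) ≤ (2 * q + 3) * n := by
      calc (2 * q + 3) * (2 * N * b) = A * b := by rw [hA]; ring
        _ ≤ _ := h2.trans h4
    exact Nat.le_of_mul_le_mul_left h7 (by omega)
  have h8 : N * a ≤ q * ((q + 1) * n) := h1.trans h5
  have h9 : 2 * N * n ≤ 2 * N * (1 + (2 * q + 3) + (a + b)) := Nat.mul_le_mul_left _ (by omega)
  have h10 : 2 * N * (1 + (2 * q + 3) + (a + b)) =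
      2 * N * (2 * q + 4) + 2 * (N * a) + 2 * N * b := by ring
  have h11 : 2 * N * n = 2 * (q * ((q + 1) * n)) + 2 * n := by rw [hN]; ring
  omega

omit [DecidableEq V] in
lemma card_hub {q n A : ℕ} (hn0 : 0 < n) (he : G.edgeFinset.card ≤ (q + 2) * n) :
    (hub G A n).card ≤ 2 * A * (q + 2) := by
  have h1 : (hub G A n).card * n ≤ ∑ u ∈ hub G A n, A * G.degree u := by
    rw [← smul_eq_mul (a := (hub G A n).card)]
    apply card_nsmul_le_sum
    intro u hu
    simp only [hub, mem_filter, mem_univ, true_and] at hu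
    exact hu.le
  have h2 : ∑ u ∈ hub G A n, A * G.degree u ≤ A * (2 * G.edgeFinset.card) := by
    rw [← mul_sum, ← G.sum_degrees_eq_twice_card_edges]
    exact Nat.mul_le_mul_left _ (sum_le_sum_of_subset (subset_univ _))
  have h3 : (hub G A n).card * n ≤ 2 * A * (q + 2) * n := by
    calc (hub G A n).card * n ≤ A * (2 * G.edgeFinset.card) := h1.trans h2
      _ ≤ A * (2 * ((q + 2) * n)) := Nat.mul_le_mul_left _ (Nat.mul_le_mul_left _ he)
      _ = _ := by ring
  exact Nat.le_of_mul_le_mul_right h3 hn0

/-- Double counting of the edges with at most one end of linear degree. -/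
lemma sum_nonhub (A n : ℕ) :
    ∑ v ∈ (hub G A n)ᶜ, (G.degree v + hb G A n v) ≤ 2 * G.edgeFinset.card := by
  have h1 : ∑ v ∈ (hub G A n)ᶜ, hb G A n v ≤ ∑ u ∈ hub G A n, G.degree u := by
    have e1 : ∀ v, hb G A n v = ∑ u ∈ hub G A n, if G.Adj v u then 1 else 0 := by
      intro v
      rw [← sum_filter, hb]
      simp only [sum_const, smul_eq_mul, mul_one]
      congr 1
      ext u
      simp [and_comm]
    have e2 : ∀ u, G.degree u = ∑ v, if G.Adj v u then 1 else 0 := by
      intro u
      rw [← sum_filter]
      simp only [sum_const, smul_eq_mul, mul_one]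
      rw [← G.card_neighborFinset_eq_degree]
      congr 1
      ext v
      simp [G.adj_comm]
    calc ∑ v ∈ (hub G A n)ᶜ, hb G A n v =
          ∑ v ∈ (hub G A n)ᶜ, ∑ u ∈ hub G A n, if G.Adj v u then 1 else 0 :=
          sum_congr rfl (fun v _ => e1 v)
      _ = ∑ u ∈ hub G A n, ∑ v ∈ (hub G A n)ᶜ, if G.Adj v u then 1 else 0 := sum_comm
      _ ≤ ∑ u ∈ hub G A n, ∑ v, if G.Adj v u then 1 else 0 :=
          sum_le_sum (fun u _ => sum_le_sum_of_subset (subset_univ _))
      _ = ∑ u ∈ hub G A n, G.degree u := sum_congr rfl (fun u _ => (e2 u).symm)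
  rw [sum_add_distrib, ← G.sum_degrees_eq_twice_card_edges, ← sum_compl_add_sum (hub G A n)]
  exact Nat.add_le_add_left h1 _

/-- the vertices of degree `q + 1` all of whose neighbours have linear degree, but which do not
have linear degree themselves -/
def W (q A n : ℕ) : Finset V :=
  (hub G A n)ᶜ.filter fun v => G.degree v = q + 1 ∧ G.neighborFinset v ⊆ hub G A n

lemma card_W {q N n : ℕ} (hN : N = q ^ 2 + q + 1) (hn : Fintype.card V = n)
    (hn0 : 2 * N * (2 * q + 4) < n) (h : D2 G) (hdeg : ∀ v, N * G.degree v ≤ (q + 1) * n) :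
    (2 * q + 3) * n ≤ 2 * G.edgeFinset.card + (W G q (2 * (2 * q + 3) * N) n).card +
      (2 * q + 3) * (hub G (2 * (2 * q + 3) * N) n).card := by
  have hk := fun v => le_hb G hN hn hn0 h hdeg v
  set A := 2 * (2 * q + 3) * N with hA
  have hpt : ∀ v ∈ (hub G A n)ᶜ, 2 * q + 3 ≤ G.degree v + hb G A n v +
      (if G.degree v = q + 1 ∧ G.neighborFinset v ⊆ hub G A n then 1 else 0) := by
    intro v _
    by_cases hv : G.degree v ≤ 2 * q + 3
    · have h1 := hk v hv
      have h2 : hb G A n v ≤ G.degree v := card_le_card inter_subset_left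
      by_cases h3 : G.degree v = q + 1
      · have h4 : G.neighborFinset v ⊆ hub G A n := by
          have h5 : G.neighborFinset v ∩ hub G A n = G.neighborFinset v := by
            apply eq_of_subset_of_card_le inter_subset_left
            change G.degree v ≤ hb G A n v
            omega
          exact inter_eq_left.1 h5
        rw [if_pos ⟨h3, h4⟩]
        omega
      · omega
    · omega
  have h1 := sum_le_sum hpt
  rw [sum_const, smul_eq_mul, sum_add_distrib, ← sum_filter] at h1
  simp only [sum_const, smul_eq_mul, mul_one] at h1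
  have h2 := sum_nonhub G A n
  have h3 : (hub G A n)ᶜ.card = n - (hub G A n).card := by rw [card_compl, hn]
  have h4 : ((hub G A n)ᶜ.filter fun v => G.degree v = q + 1 ∧
    G.neighborFinset v ⊆ hub G A n).card = (W G q A n).card := rfl
  rw [h3, h4] at h1
  have h5 : (hub G A n).card ≤ n := by rw [← hn]; exact card_le_univ _
  have h6 : (n - (hub G A n).card) * (2 * q + 3) + (2 * q + 3) * (hub G A n).card =
      (2 * q + 3) * n := by
    rw [mul_comm (n - (hub G A n).card), ← mul_add, Nat.sub_add_cancel h5]
  omega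

/-- The general lower bound. -/
theorem weak_lower {q N n : ℕ} (hN : N = q ^ 2 + q + 1) (hn : Fintype.card V = n)
    (hn0 : 2 * N * (2 * q + 4) < n) (h : D2 G) (hdeg : ∀ v, N * G.degree v ≤ (q + 1) * n) :
    (q + 1) * n ≤ G.edgeFinset.card + (q + 1) * (2 * (2 * (2 * q + 3) * N) * (q + 2)) := by
  have hk := fun v => le_hb G hN hn hn0 h hdeg v
  by_cases he : G.edgeFinset.card ≤ (q + 2) * n
  · have hH := card_hub G (A := 2 * (2 * q + 3) * N) (by omega : 0 < n) he
    set A := 2 * (2 * q + 3) * N with hA
    have hpt : ∀ v ∈ (hub G A n)ᶜ, 2 * (q + 1) ≤ G.degree v + hb G A n v := by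
      intro v _
      by_cases hv : G.degree v ≤ 2 * q + 3
      · have h1 := hk v hv
        have h2 : hb G A n v ≤ G.degree v := card_le_card inter_subset_left
        omega
      · omega
    have h1 := card_nsmul_le_sum _ _ _ hpt
    rw [smul_eq_mul] at h1
    have h2 := sum_nonhub G A n
    have h3 : (hub G A n)ᶜ.card = n - (hub G A n).card := by rw [card_compl, hn]
    rw [h3] at h1
    have h5 : (hub G A n).card ≤ n := by rw [← hn]; exact card_le_univ _
    have h6 : (n - (hub G A n).card) * (2 * (q + 1)) + (2 * (q + 1)) * (hub G A n).card =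
        (2 * (q + 1)) * n := by
      rw [mul_comm (n - (hub G A n).card), ← mul_add, Nat.sub_add_cancel h5]
    have h7 : (q + 1) * (hub G A n).card ≤ (q + 1) * (2 * A * (q + 2)) := Nat.mul_le_mul_left _ hH
    nlinarith
  · have : (q + 1) * n ≤ (q + 2) * n := Nat.mul_le_mul_right _ (by omega)
    omega

/-- The main lower bound, for orders congruent to `q` modulo `q ^ 2 + q + 1`. -/
theorem lower {q N n m : ℕ} (hq : 2 ≤ q) (hN : N = q ^ 2 + q + 1) (hn : Fintype.card V = n)
    (hnm : n = N * m + q) (hn1 : 2 * N * (2 * q + 4) < n) (h : D2 G)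
    (hdeg : ∀ v, N * G.degree v ≤ (q + 1) * n) :
    (2 * N * (q + 1) + 1) * n ≤ 2 * N * G.edgeFinset.card +
      N * (2 * q + 3) * (2 * (2 * (2 * q + 3) * N) * (q + 2)) := by
  by_contra he
  push Not at he
  have hNpos : 7 ≤ N := by nlinarith
  have hW := card_W G hN hn hn1 h hdeg
  have he2 : G.edgeFinset.card ≤ (q + 2) * n := by
    have h1 : 2 * N * G.edgeFinset.card ≤ 2 * N * ((q + 2) * n) := by
      have h2 : (2 * N * (q + 1) + 1) * n ≤ 2 * N * ((q + 2) * n) := by
        calc (2 * N * (q + 1) + 1) * n ≤ (2 * N * (q + 1) + 2 * N) * n :=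
              Nat.mul_le_mul_right _ (by omega)
          _ = _ := by ring
      omega
    exact Nat.le_of_mul_le_mul_left h1 (by omega)
  have hH := card_hub G (A := 2 * (2 * q + 3) * N) (by omega : 0 < n) he2
  set A := 2 * (2 * q + 3) * N with hA
  -- `W` contains almost all vertices
  have hWbig : q * ((q + 1) * n) < (W G q A n).card * N := by
    have h1 : N * ((2 * q + 3) * n) ≤ N * (2 * G.edgeFinset.card + (W G q A n).card +
      (2 * q + 3) * (hub G A n).card) := Nat.mul_le_mul_left _ hW
    have h2 : N * (2 * q + 3) * (hub G A n).card ≤ N * (2 * q + 3) * (2 * A * (q + 2)) :=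
      Nat.mul_le_mul_left _ hH
    have h3 : N * (2 * G.edgeFinset.card + (W G q A n).card +
      (2 * q + 3) * (hub G A n).card) = 2 * N * G.edgeFinset.card +
        (W G q A n).card * N + N * (2 * q + 3) * (hub G A n).card := by ring
    have h4 : N * ((2 * q + 3) * n) = (2 * N * (q + 1) + 1) * n + q * ((q + 1) * n) := by
      rw [hN]
      ring
    omega
  -- members of `W` are pairwise nonadjacent
  have hpair : ∀ v ∈ W G q A n, ∀ w ∈ W G q A n,
      (G.neighborFinset v ∩ G.neighborFinset w).Nonempty := by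
    intro v hv w hw
    simp only [W, mem_filter, mem_compl] at hv hw
    rcases h v w with rfl | h1 | ⟨u, h1, h2⟩
    · rw [inter_self, ← card_pos]
      have : G.degree v = q + 1 := hv.2.1
      rw [G.card_neighborFinset_eq_degree]
      omega
    · exfalso
      apply hw.1
      apply hv.2.2
      simpa using h1
    · exact ⟨u, by simp [h1, h2.symm]⟩
  -- the fractional matching
  have hnR : (0 : ℝ) < n := by exact_mod_cast (by omega : 0 < n)
  have hNR : (0 : ℝ) < N := by exact_mod_cast (by omega : 0 < N)
  have hqR : (0 : ℝ) < (q : ℝ) + 1 := by positivity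
  obtain ⟨M, T, hP⟩ := exists_plane (ι := W G q A n) q (by omega)
    (fun v => G.neighborFinset (v : V))
    (by
      rintro ⟨v, hv⟩
      simp only [W, mem_filter] at hv
      exact hv.2.1)
    (by
      rintro ⟨v, hv⟩ ⟨w, hw⟩
      exact hpair v hv w hw)
    (fun _ => N / ((q + 1) * n))
    (by
      refine ⟨fun _ => by positivity, fun x => ?_⟩
      rw [sum_const, nsmul_eq_mul, mul_div_assoc', div_le_one (by positivity)]
      have h1 : (univ.filter fun v : W G q A n => x ∈ G.neighborFinset (v : V)).card ≤
          G.degree x := by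
        rw [← G.card_neighborFinset_eq_degree]
        apply card_le_card_of_injOn (fun v : W G q A n => (v : V))
        · intro v hv
          simp only [coe_filter, mem_univ, true_and, Set.mem_ofPred_eq,
            SimpleGraph.mem_neighborFinset] at hv
          simpa using hv.symm
        · intro v _ w _ hvw
          exact Subtype.ext hvw
      have h2 := hdeg x
      have h3 : (univ.filter fun v : W G q A n => x ∈ G.neighborFinset (v : V)).card * N ≤
          (q + 1) * n := by
        calc _ ≤ G.degree x * N := Nat.mul_le_mul_right _ h1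
          _ = N * G.degree x := mul_comm _ _
          _ ≤ _ := h2
      exact_mod_cast h3)
    (by
      rw [sum_const, nsmul_eq_mul, mul_div_assoc', lt_div_iff₀ (by positivity), card_univ,
        Fintype.card_coe]
      exact_mod_cast hWbig)
  -- closed neighbourhoods within the plane
  set S : V → Finset V := fun u => T.filter fun x => x = u ∨ G.Adj u x with hS
  have hST : ∀ u, S u ⊆ T := fun u => filter_subset _ _
  have hblock : ∀ u, ∀ i ∈ M, (S u ∩ G.neighborFinset (i : V)).Nonempty := by
    intro u i hi
    have hsub := hP.sub i hi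
    have hmem : ∀ z, G.Adj (i : V) z → z ∈ T := by
      intro z hz
      apply hsub
      simpa using hz
    rcases h u (i : V) with h0 | h1 | ⟨w, h1, h2⟩
    · have hcd : (G.neighborFinset (i : V)).card = q + 1 := hP.cardF i hi
      obtain ⟨z, hz⟩ : (G.neighborFinset (i : V)).Nonempty := by
        rw [← card_pos]
        omega
      refine ⟨z, ?_⟩
      have hz' : G.Adj (i : V) z := by simpa using hz
      rw [mem_inter]
      refine ⟨?_, hz⟩
      simp only [hS, mem_filter]
      refine ⟨hmem z hz', Or.inr ?_⟩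
      rw [h0]
      exact hz'
    · exact ⟨u, by simp [hS, hmem u h1.symm, h1.symm]⟩
    · exact ⟨w, by simp [hS, hmem w h2.symm, h2.symm, h1]⟩
  have hSk : ∀ u, q + 1 ≤ (S u).card := fun u => hP.le_card (hST u) (hblock u)
  -- upper bound
  have hup : ∑ u, (S u).card = ∑ x ∈ T, (1 + G.degree x) := by
    calc ∑ u, (S u).card = ∑ u, ∑ x ∈ T, if x = u ∨ G.Adj u x then 1 else 0 := by
          apply sum_congr rfl
          intro u _
          rw [← sum_filter]
          simp [hS]
      _ = ∑ x ∈ T, ∑ u, if x = u ∨ G.Adj u x then 1 else 0 := sum_comm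
      _ = ∑ x ∈ T, (1 + G.degree x) := by
          apply sum_congr rfl
          intro x _
          rw [← sum_filter]
          simp only [sum_const, smul_eq_mul, mul_one]
          have : (univ.filter fun u => x = u ∨ G.Adj u x) =
              insert x (G.neighborFinset x) := by
            ext u
            simp only [mem_filter, mem_univ, true_and, mem_insert, SimpleGraph.mem_neighborFinset]
            rw [G.adj_comm, eq_comm]
          rw [this, card_insert_of_notMem (by simp), G.card_neighborFinset_eq_degree]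
          ring
  have hdm : ∀ x, G.degree x ≤ (q + 1) * m := by
    intro x
    by_contra hlt
    have h1 : N * ((q + 1) * m + 1) ≤ N * G.degree x := Nat.mul_le_mul_left _ (by omega)
    have h2 := hdeg x
    have h3 : (q + 1) * n + 1 = N * ((q + 1) * m + 1) := by
      rw [hnm, hN]
      ring
    omega
  have hup2 : ∑ u, (S u).card ≤ N * (1 + (q + 1) * m) := by
    rw [hup]
    calc ∑ x ∈ T, (1 + G.degree x) ≤ ∑ _x ∈ T, (1 + (q + 1) * m) :=
          sum_le_sum (fun x _ => Nat.add_le_add_left (hdm x) _)
      _ = N * (1 + (q + 1) * m) := by rw [sum_const, hP.cardT, ← hN, smul_eq_mul]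
  -- lower bound
  have hlow1 : (n - N) * (q + 1) ≤ ∑ u ∈ Tᶜ, (S u).card := by
    have hc : Tᶜ.card = n - N := by
      rw [card_compl, hn, hP.cardT, hN]
    rw [← hc, ← smul_eq_mul]
    exact card_nsmul_le_sum _ _ _ (fun u _ => hSk u)
  have hlow2 : (q + 1) * (q ^ 2 + q + 1) + 2 ≤ ∑ u ∈ T, (S u).card := by
    apply hP.sum_closed hq S (fun u _ => hST u)
    · intro u hu
      simp [hS, hu]
    · intro u hu x _ hxu
      simp only [hS, mem_filter] at hxu ⊢
      refine ⟨hu, ?_⟩
      rcases hxu.2 with h1 | h1
      · exact Or.inl h1.symm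
      · exact Or.inr h1.symm
    · intro u _
      exact hblock u
  have hsum := sum_compl_add_sum T (fun u => (S u).card)
  rw [← hN] at hlow2
  have hNn : N ≤ n := by nlinarith
  have h1 : (n - N) * (q + 1) + (q + 1) * N = (q + 1) * n := by
    rw [mul_comm (n - N), ← mul_add, Nat.sub_add_cancel hNn]
  have h2 : (q + 1) * n + 1 = N * (1 + (q + 1) * m) := by
    rw [hnm, hN]
    ring
  omega

end Pool.Agent.Y431.D2
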